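import Mathlib

/-!
Exponential sums on `ZMod Q`: geometric sums, the Kusmin-Landau inequality, Weyl differencing,
the divisor bound.
-/

set_option autoImplicit false
set_option linter.unusedSectionVars false

open Finset Complex
open scoped Real ComplexConjugate

namespace Pool.Agent.MP_e4c747_an

/-- the inverse of `exp (2 θ i) - 1` -/
noncomputable def cf (θ : ℝ) : ℂ := -1 / 2 - (Real.cos θ / Real.sin θ / 2 : ℝ) * I

theorem cf_mul {θ : ℝ} (h : Real.sin θ ≠ 0) : cf θ * (exp (2 * θ * I) - 1) = 1 := by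
  have h1 : exp (2 * θ * I) = (Real.cos (2 * θ) : ℝ) + (Real.sin (2 * θ) : ℝ) * I := by
    rw [show (2 * θ * I : ℂ) = ((2 * θ : ℝ) : ℂ) * I by push_cast; ring, exp_mul_I]
    push_cast; ring
  have h2 := Real.sin_sq_add_cos_sq θ
  rw [h1, Real.cos_two_mul, Real.sin_two_mul]
  unfold cf
  apply Complex.ext
  · simp only [mul_re, sub_re, div_ofNat_re, neg_re, one_re, ofReal_re, I_re, mul_zero, ofReal_im,
      I_im, mul_one, sub_self, sub_zero, add_re, add_zero, sub_im, div_ofNat_im, neg_im, one_im,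
      neg_zero, zero_div, mul_im, zero_sub, add_im, zero_add]
    field_simp
    nlinarith
  · simp only [mul_re, sub_re, div_ofNat_re, neg_re, one_re, ofReal_re, I_re, mul_zero, ofReal_im,
      I_im, mul_one, sub_self, sub_zero, add_re, add_zero, sub_im, div_ofNat_im, neg_im, one_im,
      neg_zero, zero_div, mul_im, zero_sub, add_im, zero_add]
    field_simp
    linear_combination (-(2 : ℝ) * Real.cos θ) * h2

theorem sin_ge {t : ℝ} (h0 : 0 < t) (h1 : t ≤ 1 / 2) : 2 * t ≤ Real.sin (π * t) := by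
  have := Real.mul_le_sin (x := π * t) (by positivity) (by nlinarith [Real.pi_pos])
  rwa [show 2 / π * (π * t) = 2 * t by field_simp] at this

theorem cot_le {t : ℝ} (h0 : 0 < t) (h1 : t ≤ 1 / 2) :
    |Real.cos (π * t) / Real.sin (π * t)| ≤ 1 / (2 * t) := by
  have h2 := sin_ge h0 h1
  rw [abs_div, abs_of_pos (by linarith : 0 < Real.sin (π * t))]
  exact div_le_div₀ zero_le_one (Real.abs_cos_le_one _) (by positivity) h2

theorem norm_cf_le {t : ℝ} (h0 : 0 < t) (h1 : t ≤ 1 / 2) : ‖cf (π * t)‖ ≤ 1 / (2 * t) := by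
  have h2 := cot_le h0 h1
  have h3 : (1 : ℝ) ≤ 1 / (2 * t) := by rw [le_div_iff₀ (by positivity)]; linarith
  unfold cf
  refine (norm_sub_le _ _).trans ?_
  rw [norm_mul, norm_I, mul_one, norm_real, Real.norm_eq_abs, abs_div]
  norm_num
  norm_num at h2 h3
  linarith

theorem cot_anti {s t : ℝ} (h0 : 0 < s) (hst : s ≤ t) (h1 : t ≤ 1 / 2) :
    Real.cos (π * t) / Real.sin (π * t) ≤ Real.cos (π * s) / Real.sin (π * s) := by
  have h2 := sin_ge h0 (hst.trans h1)
  have h3 := sin_ge (h0.trans_le hst) h1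
  rw [div_le_div_iff₀ (by linarith) (by linarith)]
  have h4 : 0 ≤ Real.sin (π * t - π * s) := Real.sin_nonneg_of_nonneg_of_le_pi
    (by nlinarith [Real.pi_pos]) (by nlinarith [Real.pi_pos])
  rw [Real.sin_sub] at h4
  linarith

/-- the Kusmin-Landau inequality -/
theorem kusmin_landau (z : ℕ → ℂ) (t : ℕ → ℝ) (n : ℕ) {l : ℝ} (hl : 0 < l)
    (hz : ∀ j, ‖z j‖ = 1) (hs : ∀ j < n, z (j + 1) = z j * exp (2 * (π * t j : ℝ) * I))
    (h0 : l ≤ t 0) (hm : ∀ j < n, t j ≤ t (j + 1)) (h1 : ∀ j ≤ n, t j ≤ 1 / 2) :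
    ‖∑ j ∈ range n, z j‖ ≤ 2 / l := by
  have hge : ∀ j ≤ n, l ≤ t j := by
    intro j hj
    induction j with
    | zero => exact h0
    | succ j ih => exact (ih (by omega)).trans (hm j (by omega))
  have key : ∀ m ≤ n, ‖∑ j ∈ range m, z j - cf (π * t m) * z m‖ ≤ ‖cf (π * t 0)‖ +
      (Real.cos (π * t 0) / Real.sin (π * t 0) - Real.cos (π * t m) / Real.sin (π * t m)) / 2 := by
    intro m hmn
    induction m with
    | zero => simp [hz]
    | succ m ih =>
      have hp : 0 < t m := hl.trans_le (hge m (by omega))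
      have h2 := cf_mul (θ := π * t m) (by linarith [sin_ge hp (h1 m (by omega))])
      have h3 : ∑ j ∈ range (m + 1), z j - cf (π * t (m + 1)) * z (m + 1) =
          (∑ j ∈ range m, z j - cf (π * t m) * z m) +
            (cf (π * t m) - cf (π * t (m + 1))) * z (m + 1) := by
        rw [sum_range_succ, hs m (by omega)]
        linear_combination (-z m) * h2
      have h4 := cot_anti hp (hm m (by omega)) (h1 (m + 1) hmn)
      have h5 : ‖(cf (π * t m) - cf (π * t (m + 1))) * z (m + 1)‖ =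
          (Real.cos (π * t m) / Real.sin (π * t m) -
            Real.cos (π * t (m + 1)) / Real.sin (π * t (m + 1))) / 2 := by
        rw [norm_mul, hz, mul_one, show cf (π * t m) - cf (π * t (m + 1)) =
          -(((Real.cos (π * t m) / Real.sin (π * t m) -
            Real.cos (π * t (m + 1)) / Real.sin (π * t (m + 1))) / 2 : ℝ) * I) by
            unfold cf; push_cast; ring, norm_neg, norm_mul, norm_I, mul_one, norm_real,
          Real.norm_eq_abs, abs_of_nonneg (by linarith)]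
      rw [h3]
      refine (norm_add_le _ _).trans ?_
      rw [h5]
      linarith [ih (by omega)]
  have h2 := key n le_rfl
  have hb : ∀ j ≤ n, 1 / (2 * t j) ≤ 1 / (2 * l) := fun j hj =>
    one_div_le_one_div_of_le (by positivity) (by linarith [hge j hj])
  have h3 := (norm_cf_le (hl.trans_le h0) (h1 0 (by omega))).trans (hb 0 (by omega))
  have h4 := (norm_cf_le (hl.trans_le (hge n le_rfl)) (h1 n le_rfl)).trans (hb n le_rfl)
  have h5 := abs_le.1 ((cot_le (hl.trans_le h0) (h1 0 (by omega))).trans (hb 0 (by omega)))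
  have h6 := abs_le.1 ((cot_le (hl.trans_le (hge n le_rfl)) (h1 n le_rfl)).trans (hb n le_rfl))
  have h7 : ‖∑ j ∈ range n, z j‖ ≤ ‖∑ j ∈ range n, z j - cf (π * t n) * z n‖ +
      ‖cf (π * t n) * z n‖ := norm_le_norm_sub_add _ _
  rw [norm_mul, hz, mul_one] at h7
  have h8 : 2 / l = 4 * (1 / (2 * l)) := by field_simp; ring
  have h9 : 0 ≤ 1 / (2 * l) := by positivity
  linarith

/-- Weyl differencing -/
theorem weyl_diff (a : ℕ → ℂ) (ha : ∀ i, ‖a i‖ = 1) {n H : ℕ} (hn : n ≤ H) :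
    ‖∑ i ∈ range n, a i‖ ^ 2 ≤
      H + 2 * ∑ h ∈ range H, ‖∑ i ∈ range (n - (h + 1)), a (i + (h + 1)) * conj (a i)‖ := by
  have key : ∀ n, ‖∑ i ∈ range n, a i‖ ^ 2 =
      n + 2 * (∑ m ∈ range n, ∑ k ∈ range m, a m * conj (a k)).re := by
    intro n
    induction n with
    | zero => simp
    | succ n ih =>
      rw [sum_range_succ, sum_range_succ, add_re, ← mul_sum, ← map_sum, Complex.sq_norm,
        normSq_add, ← Complex.sq_norm, ← Complex.sq_norm, ih, ha, ← conj_re (_ * conj (a n))]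
      simp only [map_mul, conj_conj, mul_comm (conj (∑ i ∈ range n, a i))]
      push_cast; ring
  have h1 : ∑ m ∈ range n, ∑ k ∈ range m, a m * conj (a k) =
      ∑ h ∈ range n, ∑ i ∈ range (n - (h + 1)), a (i + (h + 1)) * conj (a i) := by
    rw [sum_sigma', sum_sigma']
    refine sum_nbij' (fun x => ⟨x.1 - x.2 - 1, x.2⟩) (fun x => ⟨x.2 + (x.1 + 1), x.2⟩) ?_ ?_ ?_ ?_ ?_
    · rintro ⟨m, k⟩ h
      simp only [mem_sigma, mem_range] at h ⊢
      omega
    · rintro ⟨m, k⟩ h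
      simp only [mem_sigma, mem_range] at h ⊢
      omega
    · rintro ⟨m, k⟩ h
      simp only [mem_sigma, mem_range] at h
      simp only [Sigma.mk.injEq, heq_eq_eq, and_true]
      omega
    · rintro ⟨m, k⟩ h
      simp only [Sigma.mk.injEq, heq_eq_eq, and_true]
      omega
    · rintro ⟨m, k⟩ h
      simp only [mem_sigma, mem_range] at h
      dsimp only
      rw [show k + (m - k - 1 + 1) = m by omega]
  rw [key, h1]
  have h2 : (n : ℝ) ≤ H := by exact_mod_cast hn
  have h3 := (re_le_norm _).trans ((norm_sum_le (range n) fun h =>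
    ∑ i ∈ range (n - (h + 1)), a (i + (h + 1)) * conj (a i)).trans
      (sum_le_sum_of_subset_of_nonneg (range_subset_range.2 hn) fun _ _ _ => norm_nonneg _))
  linarith

theorem sum_comp_le {α β : Type} [DecidableEq β] (s : Finset α) (t : Finset β) (f : α → β)
    (hf : ∀ a ∈ s, f a ∈ t) {D : ℝ} (hD : ∀ b ∈ t, (#{a ∈ s | f a = b} : ℝ) ≤ D) (w : β → ℝ)
    (hw : ∀ b ∈ t, 0 ≤ w b) : ∑ a ∈ s, w (f a) ≤ D * ∑ b ∈ t, w b := by
  rw [← sum_fiberwise_of_maps_to hf, mul_sum]
  refine sum_le_sum fun b hb => ?_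
  rw [sum_congr rfl (g := fun _ => w b) fun a ha => by rw [(mem_filter.1 ha).2], sum_const,
    nsmul_eq_mul]
  exact mul_le_mul_of_nonneg_right (hD b hb) (hw b hb)

theorem harm_le (n : ℕ) : ∑ r ∈ Icc 1 n, (1 / r : ℝ) ≤ 1 + Real.log n := by
  have := harmonic_le_one_add_log n
  rw [harmonic_eq_sum_Icc] at this
  push_cast at this
  simpa using this

theorem divisor_bound (s : ℕ) : ∃ C : ℕ, 1 ≤ C ∧ ∀ n : ℕ, n ≠ 0 → #n.divisors ^ s ≤ C * n := by
  refine ⟨(s.factorial * 2 ^ s) ^ 2 ^ s, Nat.one_le_iff_ne_zero.2 (by positivity), fun n hn => ?_⟩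
  have h1 : ∀ p ∈ n.primeFactors, (n.factorization p + 1) ^ s ≤
      (if p < 2 ^ s then s.factorial * 2 ^ s else 1) * p ^ n.factorization p := by
    intro p hp
    have hp2 := (Nat.prime_of_mem_primeFactors hp).two_le
    generalize n.factorization p = a
    split_ifs with h
    · calc (a + 1) ^ s ≤ (a + 1).ascFactorial s := Nat.pow_succ_le_ascFactorial _ _
        _ = s.factorial * (a + s).choose s := Nat.ascFactorial_eq_factorial_mul_choose _ _
        _ ≤ s.factorial * 2 ^ (a + s) := Nat.mul_le_mul_left _ (Nat.choose_le_two_pow _ _)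
        _ = s.factorial * 2 ^ s * 2 ^ a := by ring
        _ ≤ _ := Nat.mul_le_mul_left _ (Nat.pow_le_pow_left hp2 _)
    · calc (a + 1) ^ s ≤ (2 ^ a) ^ s := Nat.pow_le_pow_left Nat.lt_two_pow_self _
        _ = (2 ^ s) ^ a := by rw [← pow_mul, ← pow_mul, mul_comm]
        _ ≤ _ := by rw [one_mul]; exact Nat.pow_le_pow_left (not_lt.1 h) _
  have h2 : ∏ p ∈ n.primeFactors, p ^ n.factorization p = n :=
    Nat.prod_factorization_pow_eq_self hn
  rw [Nat.card_divisors hn, ← prod_pow]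
  refine (prod_le_prod' h1).trans ?_
  rw [prod_mul_distrib, h2]
  refine Nat.mul_le_mul_right _ ?_
  rw [prod_ite, prod_const, prod_const_one, mul_one]
  refine Nat.pow_le_pow_right (by positivity) ?_
  calc _ ≤ #(range (2 ^ s)) := card_le_card fun p hp => mem_range.2 (mem_filter.1 hp).2
    _ = _ := card_range _

variable {Q : ℕ} [NeZero Q]

/-- the standard character -/
noncomputable abbrev ψ (x : ZMod Q) : ℂ := ZMod.stdAddChar x

theorem norm_ψ (x : ZMod Q) : ‖ψ x‖ = 1 := AddChar.norm_apply _ _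

theorem ψ_add (x y : ZMod Q) : ψ (x + y) = ψ x * ψ y := AddChar.map_add_eq_mul _ _ _

theorem ψ_neg (x : ZMod Q) : ψ (-x) = conj (ψ x) := AddChar.map_neg_eq_conj _ _

theorem ψ_sub (x y : ZMod Q) : ψ x * conj (ψ y) = ψ (x - y) := by
  rw [sub_eq_add_neg, ψ_add, ψ_neg]

theorem ψ_nat (d : ℕ) : ψ (d : ZMod Q) = exp (2 * (π * (d / Q : ℝ) : ℝ) * I) := by
  have := ZMod.stdAddChar_coe (N := Q) (d : ℤ)
  rw [Int.cast_natCast] at this
  rw [show ψ (d : ZMod Q) = _ from this]
  congr 1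
  push_cast; ring

/-- distance to the nearest multiple of `Q` -/
def nrm (x : ZMod Q) : ℕ := x.valMinAbs.natAbs

theorem nrm_pos {x : ZMod Q} (h : x ≠ 0) : 0 < nrm x :=
  Int.natAbs_pos.2 fun h' => h ((ZMod.valMinAbs_eq_zero x).1 h')

theorem nrm_le (x : ZMod Q) : nrm x ≤ Q / 2 := ZMod.natAbs_valMinAbs_le x

theorem eq_nrm (x : ZMod Q) : x = nrm x ∨ x = -(nrm x : ZMod Q) := by
  unfold nrm
  rcases Int.natAbs_eq x.valMinAbs with h | h
  · left
    conv_lhs => rw [← x.coe_valMinAbs, h, Int.cast_natCast]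
  · right
    conv_lhs => rw [← x.coe_valMinAbs, h, Int.cast_neg, Int.cast_natCast]

theorem kl_zmod (φ : ℕ → ZMod Q) (d : ℕ → ℕ) (n : ℕ) {l : ℝ} (hl : 0 < l)
    (hs : ∀ j < n, φ (j + 1) = φ j + d j) (h0 : l ≤ d 0) (hm : ∀ j < n, d j ≤ d (j + 1))
    (h1 : ∀ j ≤ n, 2 * d j ≤ Q) : ‖∑ j ∈ range n, ψ (φ j)‖ ≤ 2 * Q / l := by
  have hQ : (0 : ℝ) < Q := Nat.cast_pos.2 (NeZero.pos Q)
  have := kusmin_landau (fun j => ψ (φ j)) (fun j => d j / Q) n (l := l / Q) (by positivity)
    (fun j => norm_ψ _) (fun j hj => by rw [hs j hj, ψ_add, ψ_nat])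
    (by gcongr) (fun j hj => by have := hm j hj; gcongr)
    (fun j hj => by
      have : (2 * d j : ℝ) ≤ Q := by exact_mod_cast h1 j hj
      rw [div_le_iff₀ hQ]; linarith)
  rwa [show 2 / (l / Q) = 2 * Q / l by field_simp] at this

theorem geom_le {x : ZMod Q} (hx : x ≠ 0) (c : ZMod Q) (n : ℕ) :
    ‖∑ j ∈ range n, ψ (c + x * (j : ZMod Q))‖ ≤ 2 * Q / nrm x := by
  have key : ∀ c : ZMod Q, ‖∑ j ∈ range n, ψ (c + (nrm x : ZMod Q) * (j : ZMod Q))‖ ≤ 2 * Q / nrm x :=
    fun c => kl_zmod (fun j : ℕ => c + (nrm x : ZMod Q) * (j : ZMod Q)) (fun _ => nrm x) n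
      (Nat.cast_pos.2 (nrm_pos hx)) (fun j _ => by push_cast; ring) le_rfl (fun _ _ => le_rfl)
      (fun _ _ => by have := nrm_le x; omega)
  rcases eq_nrm x with h | h
  · have := key c
    rwa [← h] at this
  · have := key (-c)
    rw [← Complex.norm_conj, map_sum] at this
    refine le_of_eq_of_le ?_ this
    congr 1
    refine sum_congr rfl fun j _ => ?_
    rw [← ψ_neg]
    congr 1
    linear_combination (j : ZMod Q) * h

theorem sum_nrm_le (s : Finset (ZMod Q)) (K : ℕ) (hs : ∀ x ∈ s, x ≠ 0 ∧ nrm x ≤ K) (w : ℕ → ℝ)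
    (hw : ∀ r, 0 ≤ w r) : ∑ x ∈ s, w (nrm x) ≤ 2 * ∑ r ∈ Icc 1 K, w r := by
  refine sum_comp_le s (Icc 1 K) nrm (fun x hx => mem_Icc.2 ⟨nrm_pos (hs x hx).1, (hs x hx).2⟩)
    (fun r _ => ?_) w (fun r _ => hw r)
  have : #{a ∈ s | nrm a = r} ≤ 2 := by
    refine le_trans (card_le_card (t := {(r : ZMod Q), -(r : ZMod Q)}) fun x hx => ?_) card_le_two
    have := eq_nrm x
    rw [(mem_filter.1 hx).2] at this
    simpa using this
  exact_mod_cast this

end Pool.Agent.MP_e4c747_an
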